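import Pool.Agent.MPC.Defs

set_option autoImplicit false

/-!
MPC-Bin (MP_80b7d7_lc, helper45).  Rings of integer valued functions which are closed under binomial
coefficients: if `N * y` is in the ring for an integer `N > 0` and `y` is integral over the ring, then
`y` is in the ring.

Proof.  For a prime `p` with `p y` in `R` and `M = R[y]`: `(p - 1)! * binom (p y) p = y * prod_{0<i<p} (p y - i)`
is congruent to `± y` modulo `p M` (Wilson), so `M = R + p M = R + p ^ k M` for all `k`, and `p ^ k M`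
is contained in `R` if `k` is the degree of an equation of integrality.
-/

namespace Pool.Agent.MPC

open Polynomial

variable {X : Type} {R : Subring (X → ℤ)}

/-- the values of the polynomials with coefficients in `R` at `y` -/
private noncomputable def MM (R : Subring (X → ℤ)) (y : X → ℤ) : Subring (X → ℤ) :=
  (aeval y : R[X] →ₐ[R] (X → ℤ)).toRingHom.range

private theorem mem_MM {y z : X → ℤ} : z ∈ MM R y ↔ ∃ q : R[X], aeval y q = z := Iff.rfl

private theorem R_le (y : X → ℤ) : R ≤ MM R y := by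
  intro r hr
  exact mem_MM.2 ⟨C ⟨r, hr⟩, by rw [aeval_C]; rfl⟩

private theorem y_mem (y : X → ℤ) : y ∈ MM R y := mem_MM.2 ⟨Polynomial.X, aeval_X y⟩

/-- `p ^ n M` is contained in `R`. -/
private theorem pow_mul_mem {y : X → ℤ} {p : ℤ} (hp : (p : X → ℤ) * y ∈ R) (hy : IsIntegral R y) :
    ∃ n : ℕ, ∀ z ∈ MM R y, ((p : X → ℤ)) ^ n * z ∈ R := by
  obtain ⟨P, hPm, hP⟩ := hy
  refine ⟨P.natDegree, ?_⟩
  intro z hz
  obtain ⟨q, rfl⟩ := mem_MM.1 hz
  have hpR : ((p : ℤ) : X → ℤ) ∈ R := intCast_mem R p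
  have h1 : aeval y q = aeval y (q %ₘ P) := by
    conv_lhs => rw [← modByMonic_add_div q P]
    rw [map_add, map_mul]
    have h2 : aeval y P = 0 := hP
    rw [h2, zero_mul, add_zero]
  rw [h1]
  by_cases hP1 : P = 1
  · rw [hP1, modByMonic_one, map_zero, mul_zero]
    exact R.zero_mem
  have h3 : (q %ₘ P).natDegree < P.natDegree := natDegree_modByMonic_lt q hPm hP1
  rw [aeval_eq_sum_range, Finset.mul_sum]
  refine R.sum_mem fun i hi => ?_
  have h4 : i ≤ P.natDegree := by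
    have := Finset.mem_range.1 hi
    omega
  have h5 : (p : X → ℤ) ^ P.natDegree * ((q %ₘ P).coeff i • y ^ i) =
      ((q %ₘ P).coeff i : X → ℤ) * ((p : X → ℤ) ^ (P.natDegree - i) * ((p : X → ℤ) * y) ^ i) := by
    have h6 : (p : X → ℤ) ^ P.natDegree = (p : X → ℤ) ^ (P.natDegree - i) * (p : X → ℤ) ^ i := by
      rw [← pow_add, Nat.sub_add_cancel h4]
    rw [h6, mul_pow]
    show _ * (((q %ₘ P).coeff i : X → ℤ) * y ^ i) = _
    ring
  rw [h5]
  exact R.mul_mem ((q %ₘ P).coeff i).2 (R.mul_mem (pow_mem hpR _) (pow_mem hp _))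

private theorem prod_mem (y : X → ℤ) (p : ℤ) (m : ℕ) :
    ∃ s ∈ MM R y, ∏ i ∈ Finset.range m, ((p : X → ℤ) * y - ((i : ℕ) + 1 : ℕ)) =
      (((-1) ^ m * (m.factorial : ℤ) : ℤ) : X → ℤ) + (p : X → ℤ) * s := by
  induction m with
  | zero => exact ⟨0, Subring.zero_mem _, by simp⟩
  | succ m ih =>
    obtain ⟨s, hs, h⟩ := ih
    have hc : (((-1) ^ m * (m.factorial : ℤ) : ℤ) : X → ℤ) ∈ MM R y := intCast_mem _ _
    have hp : (p : X → ℤ) ∈ MM R y := intCast_mem _ _
    have hm : ((m + 1 : ℕ) : X → ℤ) ∈ MM R y := natCast_mem _ _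
    refine ⟨(((-1) ^ m * (m.factorial : ℤ) : ℤ) : X → ℤ) * y + s * ((p : X → ℤ) * y - ((m + 1 : ℕ) : X → ℤ)),
      ?_, ?_⟩
    · exact Subring.add_mem _ (Subring.mul_mem _ hc (y_mem y))
        (Subring.mul_mem _ hs (Subring.sub_mem _ (Subring.mul_mem _ hp (y_mem y)) hm))
    · rw [Finset.prod_range_succ, h, Nat.factorial_succ]
      push_cast
      ring

/-- `y` is in `R + p M`. -/
private theorem y_mod (hR : BinClosed R) {y : X → ℤ} {p : ℕ} [Fact p.Prime]
    (hp : ((p : ℤ) : X → ℤ) * y ∈ R) :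
    ∃ r ∈ R, ∃ s ∈ MM R y, y = r + ((p : ℤ) : X → ℤ) * s := by
  have hpp : p.Prime := Fact.out
  obtain ⟨s, hs, h⟩ := prod_mem (R := R) y (p : ℤ) (p - 1)
  -- the binomial coefficient
  set c : X → ℤ := fun x => Ring.choose ((((p : ℤ) : X → ℤ) * y) x) p with hc
  have hcR : c ∈ R := hR _ hp p
  have h1 : (((p - 1).factorial : ℕ) : X → ℤ) * c = y * ∏ i ∈ Finset.range (p - 1),
      (((p : ℤ) : X → ℤ) * y - ((i : ℕ) + 1 : ℕ)) := by
    funext x
    have h2 := Ring.descPochhammer_eq_factorial_smul_choose ((((p : ℤ) : X → ℤ) * y) x) p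
    have h3 : (descPochhammer ℤ p).smeval ((((p : ℤ) : X → ℤ) * y) x) =
        ∏ i ∈ Finset.range p, ((p : ℤ) * y x - (i : ℤ)) := by
      rw [← Polynomial.eval_eq_smeval, descPochhammer_eval_eq_prod_range]
      rfl
    rw [h3] at h2
    have h4 : p = (p - 1) + 1 := by have := hpp.pos; omega
    have h5 : ∏ i ∈ Finset.range p, ((p : ℤ) * y x - (i : ℤ)) =
        (∏ i ∈ Finset.range (p - 1), ((p : ℤ) * y x - ((i + 1 : ℕ) : ℤ))) * ((p : ℤ) * y x) := by
      conv_lhs => rw [h4]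
      rw [Finset.prod_range_succ', ← h4]
      simp
    rw [h5] at h2
    have h6 : (p.factorial : ℤ) = (p : ℤ) * ((p - 1).factorial : ℤ) := by
      have h7 := Nat.mul_factorial_pred hpp.ne_zero
      exact_mod_cast h7.symm
    rw [nsmul_eq_mul, h6] at h2
    have hp0 : (p : ℤ) ≠ 0 := by exact_mod_cast hpp.ne_zero
    have h8 : ((p - 1).factorial : ℤ) * c x =
        y x * ∏ i ∈ Finset.range (p - 1), ((p : ℤ) * y x - ((i + 1 : ℕ) : ℤ)) := by
      apply mul_left_cancel₀ hp0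
      rw [hc]
      linear_combination -h2
    show (((p - 1).factorial : ℕ) : X → ℤ) x * c x = y x * (∏ i ∈ Finset.range (p - 1),
      (((p : ℤ) : X → ℤ) * y - ((i : ℕ) + 1 : ℕ))) x
    rw [Finset.prod_apply]
    exact h8
  rw [h] at h1
  obtain ⟨t, ht⟩ : ∃ t : ℤ, ((p - 1).factorial : ℤ) = -1 + (p : ℤ) * t := by
    have h2 : (((p - 1).factorial : ℤ) : ZMod p) = ((-1 : ℤ) : ZMod p) := by
      push_cast
      exact ZMod.wilsons_lemma p
    rw [ZMod.intCast_eq_intCast_iff_dvd_sub] at h2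
    obtain ⟨t, ht⟩ := h2
    exact ⟨-t, by linear_combination -ht⟩
  have hpM : ((p : ℤ) : X → ℤ) ∈ MM R y := intCast_mem _ _
  have htM : ((t : ℤ) : X → ℤ) ∈ MM R y := intCast_mem _ _
  have hsg : (((-1 : ℤ) ^ p : ℤ) : X → ℤ) ∈ R := intCast_mem _ _
  refine ⟨(((-1 : ℤ) ^ p : ℤ) : X → ℤ) * ((((p - 1).factorial : ℕ) : X → ℤ) * c),
    R.mul_mem hsg (R.mul_mem (natCast_mem R _) hcR),
    ((t : ℤ) : X → ℤ) * y - (((-1 : ℤ) ^ p : ℤ) : X → ℤ) * (y * s),
    Subring.sub_mem _ (Subring.mul_mem _ htM (y_mem y))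
      (Subring.mul_mem _ (R_le y hsg) (Subring.mul_mem _ (y_mem y) hs)), ?_⟩
  rw [h1, ht]
  have h4 : p = (p - 1) + 1 := by have := hpp.pos; omega
  have h5 : ((-1 : ℤ)) ^ p = - (-1) ^ (p - 1) := by
    conv_lhs => rw [h4]
    rw [pow_succ]
    ring
  have h6 : ((-1 : ℤ)) ^ (p - 1) * (-1) ^ (p - 1) = 1 := by
    rw [← mul_pow]
    norm_num
  rw [h5]
  funext x
  simp only [Pi.mul_apply, Pi.add_apply, Pi.sub_apply, Pi.intCast_apply, Int.cast_id]
  linear_combination (-(y x) + (p : ℤ) * t * y x) * h6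

private theorem M_mod (hR : BinClosed R) {y : X → ℤ} {p : ℕ} [Fact p.Prime]
    (hp : ((p : ℤ) : X → ℤ) * y ∈ R) {z : X → ℤ} (hz : z ∈ MM R y) :
    ∃ r ∈ R, ∃ s ∈ MM R y, z = r + ((p : ℤ) : X → ℤ) * s := by
  obtain ⟨r, hr, s, hs, h⟩ := y_mod hR hp
  have hpM : ((p : ℤ) : X → ℤ) ∈ MM R y := intCast_mem _ _
  obtain ⟨q, rfl⟩ := mem_MM.1 hz
  induction q using Polynomial.induction_on' with
  | add q1 q2 h1 h2 =>
    obtain ⟨r1, hr1, s1, hs1, e1⟩ := h1 (mem_MM.2 ⟨q1, rfl⟩)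
    obtain ⟨r2, hr2, s2, hs2, e2⟩ := h2 (mem_MM.2 ⟨q2, rfl⟩)
    refine ⟨r1 + r2, R.add_mem hr1 hr2, s1 + s2, Subring.add_mem _ hs1 hs2, ?_⟩
    rw [map_add, e1, e2]
    ring
  | monomial n a =>
    have key : ∀ n : ℕ, ∃ r ∈ R, ∃ s ∈ MM R y, y ^ n = r + ((p : ℤ) : X → ℤ) * s := by
      intro n
      induction n with
      | zero => exact ⟨1, R.one_mem, 0, Subring.zero_mem _, by simp⟩
      | succ n ih =>
        obtain ⟨r', hr', s', hs', e⟩ := ih
        refine ⟨r' * r, R.mul_mem hr' hr, r' * s + s' * y, ?_, ?_⟩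
        · exact Subring.add_mem _ (Subring.mul_mem _ (R_le y hr') hs)
            (Subring.mul_mem _ hs' (y_mem y))
        · rw [pow_succ, e]
          conv_lhs => rw [add_mul]
          nth_rewrite 1 [h]
          ring
    obtain ⟨r', hr', s', hs', e⟩ := key n
    refine ⟨(a : X → ℤ) * r', R.mul_mem a.2 hr', (a : X → ℤ) * s',
      Subring.mul_mem _ (R_le y a.2) hs', ?_⟩
    rw [aeval_monomial, e]
    show (a : X → ℤ) * _ = _
    ring

private theorem M_pow (hR : BinClosed R) {y : X → ℤ} {p : ℕ} [Fact p.Prime]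
    (hp : ((p : ℤ) : X → ℤ) * y ∈ R) (k : ℕ) {z : X → ℤ} (hz : z ∈ MM R y) :
    ∃ r ∈ R, ∃ s ∈ MM R y, z = r + ((p : ℤ) : X → ℤ) ^ k * s := by
  induction k generalizing z with
  | zero => exact ⟨0, R.zero_mem, z, hz, by simp⟩
  | succ k ih =>
    obtain ⟨r, hr, s, hs, e⟩ := M_mod hR hp hz
    obtain ⟨r', hr', s', hs', e'⟩ := ih hs
    refine ⟨r + ((p : ℤ) : X → ℤ) * r', R.add_mem hr (R.mul_mem (intCast_mem R _) hr'), s', hs', ?_⟩
    rw [e, e']
    ring

private theorem prime_case (hR : BinClosed R) {y : X → ℤ} (hy : IsIntegral R y) {p : ℕ}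
    (hpp : p.Prime) (hp : ((p : ℤ) : X → ℤ) * y ∈ R) : y ∈ R := by
  have : Fact p.Prime := ⟨hpp⟩
  obtain ⟨n, hn⟩ := pow_mul_mem hp hy
  obtain ⟨r, hr, s, hs, e⟩ := M_pow hR hp n (y_mem (R := R) y)
  rw [e]
  exact R.add_mem hr (hn s hs)

/-- If `N * y` is in `R` and `y` is integral over `R`, then `y` is in `R`. -/
theorem mem_of_mul_mem (hR : BinClosed R) {N : ℕ} (hN : 0 < N) {y : X → ℤ} (hy : IsIntegral R y)
    (h : ((N : ℤ) : X → ℤ) * y ∈ R) : y ∈ R := by
  induction N using Nat.strong_induction_on generalizing y with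
  | _ N ih =>
    by_cases h1 : N = 1
    · rw [h1] at h
      simpa using h
    · obtain ⟨p, hpp, m, rfl⟩ := Nat.exists_prime_and_dvd h1
      have hm : 0 < m := Nat.pos_of_mul_pos_left hN
      have hml : m < p * m := by
        have := hpp.two_le
        nlinarith
      have hyi : IsIntegral R (((m : ℤ) : X → ℤ) * y) := by
        have h2 : ((m : ℤ) : X → ℤ) * y = algebraMap R (X → ℤ) ((m : ℤ) : R) * y := by
          rw [map_intCast]
        rw [h2]
        exact isIntegral_algebraMap.mul hy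
      have h3 : ((m : ℤ) : X → ℤ) * y ∈ R := by
        refine prime_case hR hyi hpp ?_
        have h4 : ((p : ℤ) : X → ℤ) * (((m : ℤ) : X → ℤ) * y) = (((p * m : ℕ) : ℤ) : X → ℤ) * y := by
          push_cast
          ring
        rw [h4]
        exact h
      exact ih m hml hm hy h3

end Pool.Agent.MPC
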