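import Pool.Agent.MPN.Defs

set_option autoImplicit false

/-!
Rings `R` of integer valued functions on a set `X`: coefficients of minimal polynomials, definitions
(`at' A x`, `MinPolyClosed`, `zi`, `ZeroInd` are in `Pool.Agent.MPN.Defs`).
-/

namespace Pool.Agent.MPC

open Polynomial Pool.Agent.MPN

variable {X : Type}

/-- `R` is closed under the constant terms of minimal polynomials. -/
def ConstClosed (R : Subring (X → ℤ)) : Prop :=
  ∀ (ι : Type) [Fintype ι] [DecidableEq ι] (A : ι → ι → X → ℤ), (∀ i j, A i j ∈ R) →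
    ∃ m ∈ R, ∀ x, ((m x : ℤ) : ℚ) = (minpoly ℚ (at' A x)).coeff 0

/-- `R` is closed under the second coefficients (`nextCoeff`: the coefficient after the leading one,
minus the sum of the roots) of minimal polynomials. -/
def NextClosed (R : Subring (X → ℤ)) : Prop :=
  ∀ (ι : Type) [Fintype ι] [DecidableEq ι] (A : ι → ι → X → ℤ), (∀ i j, A i j ∈ R) →
    ∃ m ∈ R, ∀ x, ((m x : ℤ) : ℚ) = (minpoly ℚ (at' A x)).nextCoeff

/-- `R` is closed under the binomial coefficients `f ↦ (f choose k)`. -/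
def BinClosed (R : Subring (X → ℤ)) : Prop :=
  ∀ f ∈ R, ∀ k : ℕ, (fun x => Ring.choose (f x) k) ∈ R

/-- For every `f` in `R` there is `g` in `R` which vanishes exactly where `f` does not. -/
def CoZero (R : Subring (X → ℤ)) : Prop := ∀ f ∈ R, ∃ g ∈ R, ∀ x, g x = 0 ↔ f x ≠ 0

/-- If `N * y` is in `R` for an integer `N > 0` and `y` is integral over `R`, then `y` is in `R`. -/
def TorClosed (R : Subring (X → ℤ)) : Prop :=
  ∀ (N : ℕ) (y : X → ℤ), 0 < N → (fun x => (N : ℤ) * y x) ∈ R → IsIntegral R y → y ∈ R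

/-- the ring generated by `R` and the indicators of the zero sets of its elements -/
def pieces (R : Subring (X → ℤ)) : Subring (X → ℤ) :=
  Subring.closure ((R : Set (X → ℤ)) ∪ zi '' (R : Set (X → ℤ)))

/-- the integer valued functions which are quotients of two elements of `B` -/
def fracs (B : Subring (X → ℤ)) : Subring (X → ℤ) where
  carrier := {y | ∃ f ∈ B, ∃ g ∈ B, (∀ x, g x ≠ 0) ∧ y * g = f}
  mul_mem' := by
    rintro y y' ⟨f, hf, g, hg, h0, h⟩ ⟨f', hf', g', hg', h0', h'⟩
    refine ⟨f * f', B.mul_mem hf hf', g * g', B.mul_mem hg hg',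
      fun x => mul_ne_zero (h0 x) (h0' x), ?_⟩
    rw [← h, ← h']
    ring
  one_mem' := ⟨1, B.one_mem, 1, B.one_mem, fun _ => one_ne_zero, by ring⟩
  add_mem' := by
    rintro y y' ⟨f, hf, g, hg, h0, h⟩ ⟨f', hf', g', hg', h0', h'⟩
    refine ⟨f * g' + f' * g, B.add_mem (B.mul_mem hf hg') (B.mul_mem hf' hg), g * g',
      B.mul_mem hg hg', fun x => mul_ne_zero (h0 x) (h0' x), ?_⟩
    rw [← h, ← h']
    ring
  zero_mem' := ⟨0, B.zero_mem, 1, B.one_mem, fun _ => one_ne_zero, by ring⟩
  neg_mem' := by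
    rintro y ⟨f, hf, g, hg, h0, h⟩
    refine ⟨-f, B.neg_mem hf, g, hg, h0, ?_⟩
    rw [← h]
    ring

/-- the functions which are integral over `pieces R` and quotients of two elements of `pieces R` -/
noncomputable def mpc (R : Subring (X → ℤ)) : Subring (X → ℤ) :=
  (integralClosure (pieces R) (X → ℤ)).toSubring ⊓ fracs (pieces R)

end Pool.Agent.MPC
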