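import Pool.Agent.MPN.Main
import Pool.Agent.MPC.Defs

set_option autoImplicit false

/-!
MPC-Cls (MP_80b7d7_lc, helper45).  The smallest ring of integer valued functions which contains `R` and is
closed under minimal polynomials: the functions which are integral over the ring generated by `R` and its
zero indicators and which are exact quotients of two elements of this ring.
-/

namespace Pool.Agent.MPC

open Polynomial Pool.Agent.MPN

variable {Ω : Type} {R : Subring (Ω → ℤ)}

theorem mem_mpc {y : Ω → ℤ} : y ∈ mpc R ↔ IsIntegral (pieces R) y ∧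
    ∃ f ∈ pieces R, ∃ g ∈ pieces R, (∀ x, g x ≠ 0) ∧ y * g = f := Iff.rfl

theorem R_le_pieces : R ≤ pieces R := fun _ hf => Subring.subset_closure (Or.inl hf)

theorem zi_pieces {f : Ω → ℤ} (hf : f ∈ R) : zi f ∈ pieces R :=
  Subring.subset_closure (Or.inr ⟨f, hf, rfl⟩)

theorem pieces_le_mpc : pieces R ≤ mpc R := by
  intro y hy
  refine mem_mpc.2 ⟨?_, y, hy, 1, Subring.one_mem _, fun _ => one_ne_zero, mul_one y⟩
  have h : y = algebraMap (pieces R) (Ω → ℤ) ⟨y, hy⟩ := rfl
  rw [h]
  exact isIntegral_algebraMap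

open Classical in
/-- equal to an element of `R` on each set of points with the same zero pattern of a finite subset -/
private def Pw (R : Subring (Ω → ℤ)) (h : Ω → ℤ) : Prop :=
  ∃ s : Finset (Ω → ℤ), (∀ f ∈ s, f ∈ R) ∧ ∃ φ : Finset (Ω → ℤ) → Ω → ℤ, (∀ p, φ p ∈ R) ∧
    ∀ x, h x = φ (s.filter fun f => f x = 0) x

open Classical in
private theorem pw_two {h h' : Ω → ℤ} (H : Pw R h) (H' : Pw R h') :
    ∃ s : Finset (Ω → ℤ), (∀ f ∈ s, f ∈ R) ∧ ∃ φ φ' : Finset (Ω → ℤ) → Ω → ℤ, (∀ p, φ p ∈ R) ∧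
      (∀ p, φ' p ∈ R) ∧ (∀ x, h x = φ (s.filter fun f => f x = 0) x) ∧
        ∀ x, h' x = φ' (s.filter fun f => f x = 0) x := by
  obtain ⟨s, hs, φ, hφ, e⟩ := H
  obtain ⟨s', hs', φ', hφ', e'⟩ := H'
  refine ⟨s ∪ s', ?_, fun p => φ (p ∩ s), fun p => φ' (p ∩ s'), fun p => hφ _, fun p => hφ' _, ?_, ?_⟩
  · intro f hf
    rcases Finset.mem_union.1 hf with h1 | h1
    · exact hs f h1
    · exact hs' f h1
  · intro x
    have h1 : ((s ∪ s').filter fun f => f x = 0) ∩ s = s.filter fun f => f x = 0 := by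
      ext f
      simp only [Finset.mem_inter, Finset.mem_filter, Finset.mem_union]
      tauto
    rw [e x]
    simp only [h1]
  · intro x
    have h1 : ((s ∪ s').filter fun f => f x = 0) ∩ s' = s'.filter fun f => f x = 0 := by
      ext f
      simp only [Finset.mem_inter, Finset.mem_filter, Finset.mem_union]
      tauto
    rw [e' x]
    simp only [h1]

open Classical in
private theorem pw_of_mem {h : Ω → ℤ} (hh : h ∈ pieces R) : Pw R h := by
  induction hh using Subring.closure_induction with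
  | mem h hh =>
    rcases hh with hh | ⟨f, hf, rfl⟩
    · exact ⟨∅, by simp, fun _ => h, fun _ => hh, fun x => rfl⟩
    · refine ⟨{f}, by simpa using hf, fun p => if f ∈ p then 1 else 0, ?_, ?_⟩
      · intro p
        dsimp only
        split_ifs
        · exact R.one_mem
        · exact R.zero_mem
      · intro x
        by_cases h1 : f x = 0
        · have h2 : f ∈ ({f} : Finset (Ω → ℤ)).filter fun f => f x = 0 := by simp [h1]
          dsimp only
          rw [if_pos h2]
          simp [zi, h1]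
        · have h2 : f ∉ ({f} : Finset (Ω → ℤ)).filter fun f => f x = 0 := by simp [h1]
          dsimp only
          rw [if_neg h2]
          simp [zi, h1]
  | zero => exact ⟨∅, by simp, fun _ => 0, fun _ => R.zero_mem, fun x => rfl⟩
  | one => exact ⟨∅, by simp, fun _ => 1, fun _ => R.one_mem, fun x => rfl⟩
  | add h h' _ _ H H' =>
    obtain ⟨s, hs, φ, φ', hφ, hφ', e, e'⟩ := pw_two H H'
    exact ⟨s, hs, fun p => φ p + φ' p, fun p => R.add_mem (hφ p) (hφ' p), fun x => by
      show h x + h' x = φ _ x + φ' _ x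
      rw [← e x, ← e' x]⟩
  | neg h _ H =>
    obtain ⟨s, hs, φ, hφ, e⟩ := H
    exact ⟨s, hs, fun p => -φ p, fun p => R.neg_mem (hφ p), fun x => by
      show -h x = -φ _ x
      rw [← e x]⟩
  | mul h h' _ _ H H' =>
    obtain ⟨s, hs, φ, φ', hφ, hφ', e, e'⟩ := pw_two H H'
    exact ⟨s, hs, fun p => φ p * φ' p, fun p => R.mul_mem (hφ p) (hφ' p), fun x => by
      show h x * h' x = φ _ x * φ' _ x
      rw [← e x, ← e' x]⟩

open Classical in
theorem zeroInd_pieces : ZeroInd (pieces R) := by
  intro h hh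
  obtain ⟨s, hs, φ, hφ, e⟩ := pw_of_mem hh
  set c : Finset (Ω → ℤ) → Ω → ℤ := fun p => ∏ f ∈ s, if f ∈ p then zi f else 1 - zi f with hc
  have hcR : ∀ p, c p ∈ pieces R := by
    intro p
    refine Subring.prod_mem _ fun f hf => ?_
    split_ifs
    · exact zi_pieces (hs f hf)
    · exact Subring.sub_mem _ (Subring.one_mem _) (zi_pieces (hs f hf))
  have hc1 : ∀ x, c (s.filter fun f => f x = 0) x = 1 := by
    intro x
    rw [hc]
    dsimp only
    rw [Finset.prod_apply]
    refine Finset.prod_eq_one fun f hf => ?_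
    by_cases h1 : f x = 0
    · rw [if_pos (Finset.mem_filter.2 ⟨hf, h1⟩)]
      simp [zi, h1]
    · have h2 : f ∉ s.filter fun f => f x = 0 := fun h3 => h1 (Finset.mem_filter.1 h3).2
      rw [if_neg h2]
      simp [zi, h1]
  have hc0 : ∀ x, ∀ p ∈ s.powerset, p ≠ (s.filter fun f => f x = 0) → c p x = 0 := by
    intro x p hp hne
    rw [hc]
    dsimp only
    rw [Finset.prod_apply]
    have hps := Finset.mem_powerset.1 hp
    have h1 : ∃ f ∈ s, ¬ (f ∈ p ↔ f x = 0) := by
      by_contra h2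
      push Not at h2
      apply hne
      ext f
      rw [Finset.mem_filter]
      constructor
      · intro h3
        exact ⟨hps h3, (h2 f (hps h3)).1 h3⟩
      · rintro ⟨h3, h4⟩
        exact (h2 f h3).2 h4
    obtain ⟨f, hf, h3⟩ := h1
    refine Finset.prod_eq_zero hf ?_
    by_cases h4 : f ∈ p
    · have h5 : f x ≠ 0 := fun h6 => h3 ⟨fun _ => h6, fun _ => h4⟩
      rw [if_pos h4]
      simp [zi, h5]
    · have h5 : f x = 0 := by
        by_contra h6
        exact h3 ⟨fun h7 => absurd h7 h4, fun h7 => absurd h7 h6⟩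
      rw [if_neg h4]
      simp [zi, h5]
  have h1 : zi h = ∑ p ∈ s.powerset, c p * zi (φ p) := by
    funext x
    rw [Finset.sum_apply, Finset.sum_eq_single (s.filter fun f => f x = 0)]
    · rw [Pi.mul_apply, hc1 x, one_mul]
      unfold zi
      rw [e x]
    · intro p hp hne
      rw [Pi.mul_apply, hc0 x p hp hne, zero_mul]
    · intro h2
      exact absurd (Finset.mem_powerset.2 (Finset.filter_subset _ _)) h2
  rw [h1]
  exact Subring.sum_mem _ fun p _ => Subring.mul_mem _ (hcR p) (zi_pieces (hφ p))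

theorem zeroInd_mpc : ZeroInd (mpc R) := by
  intro y hy
  obtain ⟨_, f, hf, g, hg, h0, h⟩ := mem_mpc.1 hy
  have h1 : zi y = zi f := by
    funext x
    have h2 : y x * g x = f x := congrFun h x
    unfold zi
    by_cases h3 : y x = 0
    · rw [if_pos h3, if_pos (by rw [← h2, h3, zero_mul])]
    · rw [if_neg h3, if_neg (by rw [← h2]; exact mul_ne_zero h3 (h0 x))]
  rw [h1]
  exact pieces_le_mpc (zeroInd_pieces f hf)

private theorem integral_mono {B B' : Subring (Ω → ℤ)} (hB : B ≤ B') {y : Ω → ℤ}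
    (hy : IsIntegral B y) : IsIntegral B' y := by
  obtain ⟨P, hPm, hP⟩ := hy
  refine ⟨P.map (Subring.inclusion hB), hPm.map _, ?_⟩
  rw [eval₂_map]
  exact hP

theorem quoClosed_mpc : QuoClosed (mpc R) := by
  intro f g y hf hg hg0 hyg hy
  obtain ⟨hfi, F, hF, G, hG, hG0, hFG⟩ := mem_mpc.1 hf
  obtain ⟨hgi, F', hF', G', hG', hG0', hFG'⟩ := mem_mpc.1 hg
  refine mem_mpc.2 ⟨?_, F * G', Subring.mul_mem _ hF hG', F' * G, Subring.mul_mem _ hF' hG, ?_, ?_⟩
  · letI : Algebra (pieces R) (mpc R) := (Subring.inclusion (pieces_le_mpc (R := R))).toAlgebra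
    haveI : IsScalarTower (pieces R) (mpc R) (Ω → ℤ) := IsScalarTower.of_algebraMap_eq fun _ => rfl
    haveI : Algebra.IsIntegral (pieces R) (mpc R) := by
      refine ⟨fun z => ?_⟩
      obtain ⟨P, hPm, hP⟩ := (mem_mpc.1 z.2).1
      refine ⟨P, hPm, ?_⟩
      apply Subtype.ext
      have h1 := hom_eval₂ P (algebraMap (pieces R) (mpc R)) (mpc R).subtype z
      have h2 : (mpc R).subtype (eval₂ (algebraMap (pieces R) (mpc R)) z P) = 0 := by
        rw [h1]
        exact hP
      exact h2
    exact isIntegral_trans (R := pieces R) (A := mpc R) y hy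
  · intro x
    have h1 : g x * G' x = F' x := congrFun hFG' x
    show F' x * G x ≠ 0
    rw [← h1]
    exact mul_ne_zero (mul_ne_zero (hg0 x) (hG0' x)) (hG0 x)
  · rw [← hFG, ← hFG', ← hyg]
    ring

theorem mpc_closed : MinPolyClosed (mpc R) := minPolyClosed zeroInd_mpc quoClosed_mpc

theorem mpc_le {R' : Subring (Ω → ℤ)} (h : R ≤ R') (hR' : MinPolyClosed R') : mpc R ≤ R' := by
  have hp : pieces R ≤ R' := by
    refine Subring.closure_le.2 ?_
    rintro f (hf | ⟨f, hf, rfl⟩)
    · exact h hf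
    · exact zeroInd hR' f (h hf)
  intro y hy
  obtain ⟨hyi, f, hf, g, hg, h0, hfg⟩ := mem_mpc.1 hy
  exact quoClosed hR' f g y (hp hf) (hp hg) h0 hfg (integral_mono hp hyi)

theorem le_mpc : R ≤ mpc R := le_trans R_le_pieces pieces_le_mpc

end Pool.Agent.MPC
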