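import Pool.Agent.MPC.Key
import Pool.Agent.MPN.Main
import Pool.Agent.MPN.ExB

set_option autoImplicit false

/-!
MPC-Fin (MP_80b7d7_lc, helper45).  Binomially closed rings which are closed under the constant terms of
minimal polynomials contain the zero indicators and are closed under integral exact quotients.
-/

namespace Pool.Agent.MPC

open Polynomial Pool.Agent.MPN

variable {Ω : Type} {R : Subring (Ω → ℤ)}

theorem zi_integral (f : Ω → ℤ) : IsIntegral R (zi f) := by
  refine ⟨X ^ 2 - X, monic_X_pow_sub (lt_of_le_of_lt degree_X_le (by norm_num)), ?_⟩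
  rw [eval₂_sub, eval₂_X_pow, eval₂_X]
  funext x
  show zi f x ^ 2 - zi f x = 0
  unfold zi
  split_ifs <;> norm_num

/-- The constant term of the minimal polynomial of the diagonal matrix with the entries `1, 1 + w`. -/
private theorem diag_pt (w : ℚ) :
    (minpoly ℚ (Matrix.fromBlocks (Pool.Agent.MPN.comp 1 fun _ => (-1 : ℚ)) 0 0
      (Pool.Agent.MPN.comp 1 fun _ => -(1 + w)))).coeff 0 =
      1 + w - 2 * (if w = 0 then 1 else 0) := by
  have hc : ∀ a : ℚ, minpoly ℚ (Pool.Agent.MPN.comp 1 fun _ => -a) = X - C a := by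
    intro a
    have h1 : (fun _ : Fin 1 => -a) = fun i : Fin 1 => (X - C a : ℚ[X]).coeff (i : ℕ) := by
      funext i
      have hi : (i : ℕ) = 0 := by omega
      rw [hi, coeff_sub, coeff_X_zero, coeff_C_zero, zero_sub]
    rw [h1]
    exact minpoly_comp (monic_X_sub_C a) (natDegree_X_sub_C a)
  by_cases hw : w = 0
  · have h1 := minpoly_blocks (Pool.Agent.MPN.comp 1 fun _ => (-1 : ℚ))
      (Pool.Agent.MPN.comp 1 fun _ => -(1 + w)) (Y := X - C 1) (T := 1) (S := 1)
      (monic_X_sub_C 1) monic_one monic_one (by rw [mul_one]; exact hc 1)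
      (by rw [mul_one, hc, hw, add_zero]) isCoprime_one_left
    rw [h1, mul_one, mul_one, if_pos hw, hw, coeff_sub, coeff_X_zero, coeff_C_zero]
    norm_num
  · have hcop : IsCoprime (X - C 1 : ℚ[X]) (X - C (1 + w)) := by
      refine ⟨C w⁻¹, -C w⁻¹, ?_⟩
      have h1 : C w⁻¹ * C w = (1 : ℚ[X]) := by
        rw [← C_mul, inv_mul_cancel₀ hw, C_1]
      rw [C_add]
      calc C w⁻¹ * (X - C 1) + -C w⁻¹ * (X - (C 1 + C w)) = C w⁻¹ * C w := by ring
        _ = 1 := h1
    have h1 := minpoly_blocks (Pool.Agent.MPN.comp 1 fun _ => (-1 : ℚ))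
      (Pool.Agent.MPN.comp 1 fun _ => -(1 + w)) (Y := 1) (T := X - C 1) (S := X - C (1 + w))
      monic_one (monic_X_sub_C 1) (monic_X_sub_C _) (by rw [one_mul]; exact hc 1)
      (by rw [one_mul, hc]) hcop
    rw [h1, one_mul, if_neg hw, mul_coeff_zero, coeff_sub, coeff_sub, coeff_X_zero, coeff_C_zero,
      coeff_C_zero]
    ring

theorem zeroInd_of_const (hB : BinClosed R) (h : ConstClosed R) : ZeroInd R := by
  intro f hf
  set f' : R := ⟨f, hf⟩ with hf'
  set B : Matrix (Fin 1 ⊕ Fin 1) (Fin 1 ⊕ Fin 1) R :=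
    Matrix.fromBlocks (Pool.Agent.MPN.comp 1 fun _ => (-1 : R)) 0 0
      (Pool.Agent.MPN.comp 1 fun _ => -(1 + f')) with hBm
  obtain ⟨m, hm, hmx⟩ := h (Fin 1 ⊕ Fin 1) (fun i j => (B i j : Ω → ℤ)) (fun i j => (B i j).2)
  have h2 : ((2 : ℕ) : ℤ) = 2 := rfl
  refine mem_of_mul_mem hB (N := 2) (by norm_num) (zi_integral f) ?_
  have h3 : (((2 : ℕ) : ℤ) : Ω → ℤ) * zi f = 1 + f - m := by
    funext x
    have h4 : at' (fun i j => (B i j : Ω → ℤ)) x =
        Matrix.fromBlocks (Pool.Agent.MPN.comp 1 fun _ => (-1 : ℚ)) 0 0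
          (Pool.Agent.MPN.comp 1 fun _ => -(1 + ((f x : ℤ) : ℚ))) := by
      ext i j
      rcases i with i | i <;> rcases j with j | j <;>
        simp [at', hBm, Pool.Agent.MPN.comp, hf']
    have h5 := hmx x
    rw [h4, diag_pt] at h5
    have h6 : ((if ((f x : ℤ) : ℚ) = 0 then 1 else 0 : ℚ)) = ((zi f x : ℤ) : ℚ) := by
      unfold zi
      by_cases h7 : f x = 0
      · rw [if_pos h7, if_pos (by exact_mod_cast h7)]
        norm_num
      · rw [if_neg h7, if_neg (by exact_mod_cast h7)]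
        norm_num
    rw [h6] at h5
    have h8 : m x = 1 + f x - 2 * zi f x := by exact_mod_cast h5
    show (((2 : ℕ) : ℤ) : Ω → ℤ) x * zi f x = 1 + f x - m x
    rw [h8]
    simp
  rw [h3]
  exact R.sub_mem (R.add_mem R.one_mem hf) hm

/-- the finite difference of order `n` of a polynomial of degree at most `n` -/
private theorem fin_diff {F : ℚ[X]} {n : ℕ} (h : F.natDegree ≤ n) :
    ∑ k ∈ Finset.range (n + 1), (((-1 : ℤ) ^ (n - k) * n.choose k : ℤ) : ℚ) * F.eval (k : ℚ) =
      n.factorial * F.coeff n := by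
  have h1 := fwdDiff_iter_eq_sum_shift (1 : ℚ) F.eval n 0
  have h2 : (fwdDiff (1 : ℚ))^[n] F.eval 0 = n.factorial * F.coeff n := by
    rcases h.lt_or_eq with h3 | h3
    · rw [Polynomial.fwdDiff_iter_eq_zero_of_degree_lt h3, coeff_eq_zero_of_natDegree_lt h3]
      simp
    · have h4 := congrFun (Polynomial.fwdDiff_iter_degree_eq_factorial F) 0
      rw [h3] at h4
      rw [h4]
      simp only [Pi.smul_apply, Pi.natCast_apply, smul_eq_mul, leadingCoeff, h3]
      ring
  rw [← h2, h1]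
  refine Finset.sum_congr rfl fun k _ => ?_
  rw [zsmul_eq_mul, zero_add, nsmul_eq_mul, mul_one]

theorem quoClosed_of_const (hB : BinClosed R) (h : ConstClosed R) : QuoClosed R := by
  intro f g y hf hg hg0 hfg hy
  have hyI := hy
  rcases isEmpty_or_nonempty Ω with hΩ | ⟨⟨x0⟩⟩
  · have h1 : y = f := funext fun x => hΩ.elim x
    rw [h1]
    exact hf
  have hR : Nontrivial R := by
    refine ⟨⟨0, 1, ?_⟩⟩
    intro h1
    have h2 := congrArg (ev R x0) h1
    rw [map_zero, map_one] at h2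
    exact zero_ne_one h2
  obtain ⟨P0, hP0m, hP0⟩ := hy
  obtain ⟨P, hPm, hPe, hPd⟩ : ∃ P : R[X], P.Monic ∧ eval₂ (algebraMap R (Ω → ℤ)) y P = 0 ∧
      2 ≤ P.natDegree := by
    refine ⟨X ^ 2 * P0, (monic_X_pow 2).mul hP0m, ?_, ?_⟩
    · rw [eval₂_mul, hP0, mul_zero]
    · rw [(monic_X_pow 2).natDegree_mul hP0m, natDegree_X_pow]
      omega
  set d : ℕ := P.natDegree with hd
  set n : ℕ := 2 * d - 1 with hn
  have hyg : y * g ∈ R := by
    rw [hfg]
    exact hf
  choose m hm hmx using fun c : ℕ => const_at h hPm hPd hg hg0 hyg c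
  -- the values of `y * P * T`
  set M : ℕ → Ω → ℤ := fun c => (c : Ω → ℤ) * m c - ((P.eval (c : R) : R) : Ω → ℤ) ^ 2 with hM
  have hMR : ∀ c, M c ∈ R := fun c =>
    R.sub_mem (R.mul_mem (natCast_mem R c) (hm c)) (pow_mem (P.eval (c : R)).2 2)
  set Z : Ω → ℤ := ∑ k ∈ Finset.range (n + 1),
    (((-1 : ℤ) ^ (n - k) * n.choose k : ℤ) : Ω → ℤ) * M k with hZ
  have hZR : Z ∈ R := R.sum_mem fun k _ => R.mul_mem (intCast_mem R _) (hMR k)
  have hZy : ((n.factorial : ℤ) : Ω → ℤ) * y = Z := by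
    funext x
    have hPxm : (P.map (ev R x)).Monic := hPm.map _
    have hPxd : (P.map (ev R x)).natDegree = d := hPm.natDegree_map _
    have hev : (P.map (ev R x)).eval ((y x : ℤ) : ℚ) = 0 := by
      rw [eval_map]
      have h3 := congrArg ((Int.castRingHom ℚ).comp (Pi.evalRingHom (fun _ : Ω => ℤ) x)) hPe
      rw [hom_eval₂, map_zero] at h3
      exact h3
    obtain ⟨T, hT⟩ := dvd_iff_isRoot.2 (show (P.map (ev R x)).IsRoot _ from hev)
    have hTm : T.Monic := Monic.of_mul_monic_left (monic_X_sub_C _) (hT ▸ hPxm)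
    have hTd : d = 1 + T.natDegree := by
      rw [← hPxd]
      conv_lhs => rw [hT]
      rw [(monic_X_sub_C _).natDegree_mul hTm, natDegree_X_sub_C]
    set F : ℚ[X] := C ((y x : ℤ) : ℚ) * (P.map (ev R x) * T) with hF
    have hPTd : (P.map (ev R x) * T).natDegree = n := by
      rw [hPxm.natDegree_mul hTm, hPxd]
      omega
    have hFd : F.natDegree ≤ n := by
      rw [hF]
      exact (natDegree_C_mul_le _ _).trans hPTd.le
    have hFc : F.coeff n = ((y x : ℤ) : ℚ) := by
      have h1 : (P.map (ev R x) * T).coeff n = 1 := by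
        rw [← hPTd]
        exact hPxm.mul hTm
      rw [hF, coeff_C_mul, h1, mul_one]
    have hFM : ∀ k : ℕ, F.eval (k : ℚ) = ((M k x : ℤ) : ℚ) := by
      intro k
      have h1 := hmx k x T hT
      have h2 : (P.map (ev R x)).eval (k : ℚ) = (k - ((y x : ℤ) : ℚ)) * T.eval (k : ℚ) := by
        conv_lhs => rw [hT]
        rw [eval_mul, eval_sub, eval_X, eval_C]
      have h3 : (P.map (ev R x)).eval (k : ℚ) = ((((P.eval (k : R) : R) : Ω → ℤ) x : ℤ) : ℚ) := by
        rw [← ev_apply, ← eval_natCast_map]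
      have h4 : ((M k x : ℤ) : ℚ) = (k : ℚ) * ((m k x : ℤ) : ℚ) -
          ((((P.eval (k : R) : R) : Ω → ℤ) x : ℤ) : ℚ) ^ 2 := by
        rw [hM]
        simp only [Pi.sub_apply, Pi.mul_apply, Pi.pow_apply, Pi.natCast_apply]
        push_cast
        ring
      rw [h4, h1, ← h3, hF, eval_mul, eval_mul, eval_C]
      linear_combination ((P.map (ev R x)).eval (k : ℚ)) * h2
    have h5 := fin_diff hFd
    rw [hFc] at h5
    have h6 : ((Z x : ℤ) : ℚ) = (n.factorial : ℚ) * ((y x : ℤ) : ℚ) := by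
      rw [← h5, hZ, Finset.sum_apply, Int.cast_sum]
      refine Finset.sum_congr rfl fun k _ => ?_
      rw [hFM k]
      simp only [Pi.mul_apply, Pi.intCast_apply, Int.cast_id]
      push_cast
      ring
    show ((n.factorial : ℤ) : Ω → ℤ) x * y x = Z x
    rw [Pi.intCast_apply, Int.cast_id]
    exact_mod_cast h6.symm
  exact mem_of_mul_mem hB (N := n.factorial) (Nat.factorial_pos n) hyI (by rw [hZy]; exact hZR)

/-- In a binomially closed ring the constant terms suffice. -/
theorem minPolyClosed_iff_const (hB : BinClosed R) : MinPolyClosed R ↔ ConstClosed R :=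
  ⟨fun h ι _ _ A hA => h ι A hA 0,
    fun h => minPolyClosed (zeroInd_of_const hB h) (quoClosed_of_const hB h)⟩

theorem coZero_iff (hI : IsIntegrallyClosed R) : ZeroInd R ↔ CoZero R := by
  constructor
  · intro h f hf
    refine ⟨zi f, h f hf, fun x => ?_⟩
    unfold zi
    split_ifs with h1
    · simp [h1]
    · simp [h1]
  · intro h f hf
    obtain ⟨g, hg, hgx⟩ := h f hf
    refine quo_of_ic hI (g ^ 2) (f ^ 2 + g ^ 2) (zi f) (pow_mem hg 2)
      (R.add_mem (pow_mem hf 2) (pow_mem hg 2)) ?_ ?_ (zi_integral f)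
    · intro x hx
      have h1 : f x ^ 2 + g x ^ 2 = 0 := hx
      have h2 : f x = 0 := by nlinarith [sq_nonneg (f x), sq_nonneg (g x)]
      have h3 : g x = 0 := by nlinarith [sq_nonneg (f x), sq_nonneg (g x)]
      exact (hgx x).1 h3 h2
    · funext x
      show zi f x * (f x ^ 2 + g x ^ 2) = g x ^ 2
      unfold zi
      split_ifs with h1
      · rw [h1]
        ring
      · rw [(hgx x).2 h1]
        ring

/-- Without binomial coefficients the constant terms do not suffice. -/
theorem const_not : ∃ R : Subring (Bool → ℤ), ConstClosed R ∧ ¬ MinPolyClosed R := by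
  obtain ⟨R, h1, h2⟩ := exB
  exact ⟨R, h1, fun h => h2 (zeroInd h)⟩

end Pool.Agent.MPC
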