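import Pool.Agent.MPN.Quo
import Pool.Agent.MPC.Bin

set_option autoImplicit false

/-!
MPC-Key (MP_80b7d7_lc, helper45).  The constant terms of the minimal polynomials.

For `P` monic of degree `d ≥ 2` over `R` with the root `y`, `P = (X - y) T`, `y g` in `R`, `g` never `0`:
the constant term of the minimal polynomial of the block diagonal matrix of the companion matrices of `P`
and `P + g (X - y)` is `P(0) (T(0) + g)`; applied to `P(X + c)` this gives `P(c) T(c)` in `R` for all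
integers `c`.
-/

namespace Pool.Agent.MPC

open Polynomial Pool.Agent.MPN

variable {Ω : Type} {R : Subring (Ω → ℤ)}

private theorem comp_map' {K K' : Type} [CommRing K] [CommRing K'] (φ : K →+* K') (d : ℕ)
    (c : Fin d → K) : (comp d c).map φ = comp d (fun i => φ (c i)) := by
  ext i j
  simp only [Pool.Agent.MPN.comp, Matrix.map_apply, Matrix.of_apply]
  split_ifs <;> simp

/-- the constant term at one point -/
private theorem key_pt {P : ℚ[X]} (hP : P.Monic) {d : ℕ} (hd : P.natDegree = d) (hd2 : 2 ≤ d)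
    {g q : ℚ} (hg : g ≠ 0) {T : ℚ[X]} (hT : P = (X - C q) * T) {Q : ℚ[X]}
    (hQ : Q = P + (C g * X - C (g * q))) :
    (minpoly ℚ (Matrix.fromBlocks (comp d fun i => P.coeff i) 0 0
      (comp d fun i => Q.coeff i))).coeff 0 = P.eval 0 * (T.eval 0 + g) := by
  have hXq : (X - C q : ℚ[X]).Monic := monic_X_sub_C q
  have hTm : T.Monic := Monic.of_mul_monic_left hXq (hT ▸ hP)
  have hlow : (C g * X - C (g * q)).degree < P.degree := by
    have h1 : (C g * X - C (g * q) : ℚ[X]).degree ≤ 1 := by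
      refine (degree_sub_le _ _).trans ?_
      exact max_le (degree_C_mul_X_le g) (degree_C_le.trans zero_le_one)
    refine lt_of_le_of_lt h1 ?_
    rw [degree_eq_natDegree hP.ne_zero, hd]
    exact_mod_cast (show 1 < d by omega)
  have hQm : Q.Monic := by
    rw [hQ]
    exact hP.add_of_left hlow
  have hQd : Q.natDegree = d := by
    rw [hQ, natDegree_add_eq_left_of_degree_lt hlow, hd]
  set S : ℚ[X] := T + C g with hS
  have hQS : Q = (X - C q) * S := by
    rw [hQ, hS, hT, C_mul]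
    ring
  have hSm : S.Monic := Monic.of_mul_monic_left hXq (hQS ▸ hQm)
  have hcop : IsCoprime T S := by
    refine ⟨-C g⁻¹, C g⁻¹, ?_⟩
    have h1 : C g⁻¹ * C g = (1 : ℚ[X]) := by
      rw [← C_mul, inv_mul_cancel₀ hg, C_1]
    rw [hS]
    calc -C g⁻¹ * T + C g⁻¹ * (T + C g) = C g⁻¹ * C g := by ring
      _ = 1 := h1
  have hM : minpoly ℚ (comp d fun i => P.coeff i) = (X - C q) * T := by
    rw [minpoly_comp hP hd]
    exact hT
  have hN : minpoly ℚ (comp d fun i => Q.coeff i) = (X - C q) * S := by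
    rw [minpoly_comp hQm hQd]
    exact hQS
  rw [minpoly_blocks _ _ hXq hTm hSm hM hN hcop, ← hT, coeff_zero_eq_eval_zero, eval_mul, hS,
    eval_add, eval_C]

/-- `P(0) T(0)` is in `R`. -/
theorem const_zero (h : ConstClosed R) {P : R[X]} (hPm : P.Monic) (hd : 2 ≤ P.natDegree)
    {g y : Ω → ℤ} (hg : g ∈ R) (hg0 : ∀ x, g x ≠ 0) (hyg : y * g ∈ R) :
    ∃ m ∈ R, ∀ x, ∀ T : ℚ[X], P.map (ev R x) = (X - C ((y x : ℤ) : ℚ)) * T →
      ((m x : ℤ) : ℚ) = (P.map (ev R x)).eval 0 * T.eval 0 := by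
  set g' : R := ⟨g, hg⟩ with hg'
  set f' : R := ⟨y * g, hyg⟩ with hf'
  set d : ℕ := P.natDegree with hd'
  set Q : R[X] := P + (C g' * X - C f') with hQ
  set B : Matrix (Fin d ⊕ Fin d) (Fin d ⊕ Fin d) R :=
    Matrix.fromBlocks (comp d fun i => P.coeff i) 0 0 (comp d fun i => Q.coeff i) with hB
  obtain ⟨m, hm, hmx⟩ := h (Fin d ⊕ Fin d) (fun i j => (B i j : Ω → ℤ)) (fun i j => (B i j).2)
  refine ⟨m - (P.coeff 0 : Ω → ℤ) * g, R.sub_mem hm (R.mul_mem (P.coeff 0).2 hg), ?_⟩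
  intro x T hT
  have h1 : at' (fun i j => (B i j : Ω → ℤ)) x = B.map (ev R x) := rfl
  have h2 : B.map (ev R x) = Matrix.fromBlocks (comp d fun i => (P.map (ev R x)).coeff i) 0 0
      (comp d fun i => (Q.map (ev R x)).coeff i) := by
    rw [hB, Matrix.fromBlocks_map, comp_map', comp_map']
    simp only [coeff_map]
    congr 1
  have hQx : Q.map (ev R x) = P.map (ev R x) + (C ((g x : ℤ) : ℚ) * X -
      C (((g x : ℤ) : ℚ) * ((y x : ℤ) : ℚ))) := by
    rw [hQ]
    simp only [Polynomial.map_add, Polynomial.map_mul, Polynomial.map_sub, map_X, map_C, ev_apply]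
    rw [hf', hg']
    show _ + (C ((g x : ℤ) : ℚ) * X - C ((y x * g x : ℤ) : ℚ)) = _
    rw [Int.cast_mul, mul_comm ((y x : ℤ) : ℚ)]
  have h5 := key_pt (hPm.map (ev R x)) (hPm.natDegree_map _) hd (g := ((g x : ℤ) : ℚ))
    (by exact_mod_cast hg0 x) hT hQx
  rw [← h2, ← h1, ← hmx x] at h5
  have h6 : (P.map (ev R x)).eval 0 = (((P.coeff 0 : Ω → ℤ) x : ℤ) : ℚ) := by
    rw [← coeff_zero_eq_eval_zero, coeff_map, ev_apply]
  show ((m x - (P.coeff 0 : Ω → ℤ) x * g x : ℤ) : ℚ) = _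
  rw [Int.cast_sub, h5, Int.cast_mul, ← h6]
  ring

/-- `P(c) T(c)` is in `R`. -/
theorem const_at (h : ConstClosed R) {P : R[X]} (hPm : P.Monic) (hd : 2 ≤ P.natDegree)
    {g y : Ω → ℤ} (hg : g ∈ R) (hg0 : ∀ x, g x ≠ 0) (hyg : y * g ∈ R) (c : ℕ) :
    ∃ m ∈ R, ∀ x, ∀ T : ℚ[X], P.map (ev R x) = (X - C ((y x : ℤ) : ℚ)) * T →
      ((m x : ℤ) : ℚ) = (P.map (ev R x)).eval (c : ℚ) * T.eval (c : ℚ) := by
  have hc : ((c : ℕ) : Ω → ℤ) ∈ R := natCast_mem R c
  obtain ⟨m, hm, hmx⟩ := const_zero h (P := P.comp (X + C ((c : ℕ) : R)))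
    (hPm.comp_X_add_C _) (by rw [← taylor_apply, natDegree_taylor]; exact hd) (g := g)
    (y := y - ((c : ℕ) : Ω → ℤ)) hg hg0 (by
      rw [sub_mul]
      exact R.sub_mem hyg (R.mul_mem hc hg))
  refine ⟨m, hm, ?_⟩
  intro x T hT
  have h1 : (P.comp (X + C ((c : ℕ) : R))).map (ev R x) =
      (P.map (ev R x)).comp (X + C (c : ℚ)) := by
    rw [Polynomial.map_comp, Polynomial.map_add, map_X, map_C, map_natCast]
  have h2 := hmx x (T.comp (X + C (c : ℚ))) (by
    rw [h1, hT, mul_comp, sub_comp, X_comp, C_comp]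
    congr 1
    show X + C (c : ℚ) - C ((y x : ℤ) : ℚ) = X - C ((y x - ((c : ℕ) : Ω → ℤ) x : ℤ) : ℚ)
    rw [Pi.natCast_apply, Int.cast_sub, C_sub]
    push_cast
    ring)
  rw [h2, h1]
  simp [eval_comp]

end Pool.Agent.MPC
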