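import Pool.Agent.MPC.Fin

set_option autoImplicit false

/-!
MPC-Nxt (MP_80b7d7_lc, helper45).  The sum of the roots of the minimal polynomial (its second
coefficient) suffices in every ring of integer valued functions.
-/

namespace Pool.Agent.MPC

open Polynomial Pool.Agent.MPN

variable {Ω : Type} {R : Subring (Ω → ℤ)}

theorem next_of_minPoly (h : MinPolyClosed R) : NextClosed R := by
  intro ι _ _ A hA
  have hz := zeroInd h
  choose m hm hmx using fun k => h ι A hA k
  set n := Fintype.card ι with hn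
  set e : ℕ → Ω → ℤ := fun d => (∏ k ∈ Finset.Ioc d n, zi (m k)) * (1 - zi (m d)) with he
  have heR : ∀ d, e d ∈ R := fun d =>
    R.mul_mem (Subring.prod_mem R fun k _ => hz _ (hm k)) (R.sub_mem R.one_mem (hz _ (hm d)))
  refine ⟨∑ d ∈ Finset.range n, e (d + 1) * m d, R.sum_mem fun d _ => R.mul_mem (heR _) (hm d), ?_⟩
  intro x
  have hmon : (minpoly ℚ (at' A x)).Monic := minpoly.monic (Algebra.IsIntegral.isIntegral (at' A x))
  have hle : (minpoly ℚ (at' A x)).natDegree ≤ n := by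
    have h1 : minpoly ℚ (at' A x) ∣ (at' A x).charpoly := Matrix.minpoly_dvd_charpoly _
    have h2 := natDegree_le_of_dvd h1 (Matrix.charpoly_monic _).ne_zero
    rwa [Matrix.charpoly_natDegree_eq_dim] at h2
  set D := (minpoly ℚ (at' A x)).natDegree with hD
  have hmD : m D x = 1 := by
    have h1 := hmx D x
    rw [hD, hmon.coeff_natDegree] at h1
    exact_mod_cast h1
  have hm0 : ∀ k, D < k → m k x = 0 := by
    intro k hk
    have h1 := hmx k x
    rw [coeff_eq_zero_of_natDegree_lt (by omega)] at h1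
    exact_mod_cast h1
  have he1 : e D x = 1 := by
    rw [he]
    simp only [Pi.mul_apply, Finset.prod_apply, Pi.sub_apply, Pi.one_apply]
    rw [Finset.prod_eq_one fun k hk => ?_]
    · simp [zi, hmD]
    · have h1 := hm0 k (Finset.mem_Ioc.1 hk).1
      simp [zi, h1]
  have he0 : ∀ d, d ≤ n → d ≠ D → e d x = 0 := by
    intro d hdn hd
    rw [he]
    simp only [Pi.mul_apply, Finset.prod_apply, Pi.sub_apply, Pi.one_apply]
    rcases lt_or_gt_of_ne hd with h1 | h1
    · rw [Finset.prod_eq_zero (Finset.mem_Ioc.2 ⟨h1, hle⟩) (by simp [zi, hmD]), zero_mul]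
    · simp [zi, hm0 d h1]
  rw [Finset.sum_apply, Int.cast_sum]
  by_cases hD0 : D = 0
  · rw [nextCoeff, if_pos hD0]
    refine Finset.sum_eq_zero fun d hd => ?_
    have h1 := he0 (d + 1) (by have := Finset.mem_range.1 hd; omega) (by omega)
    rw [Pi.mul_apply, h1, zero_mul, Int.cast_zero]
  · rw [nextCoeff, if_neg hD0, Finset.sum_eq_single (D - 1)]
    · rw [Pi.mul_apply, Nat.sub_add_cancel (by omega), he1, one_mul]
      exact hmx _ x
    · intro d hd hd1
      have h1 := he0 (d + 1) (by have := Finset.mem_range.1 hd; omega) (by omega)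
      rw [Pi.mul_apply, h1, zero_mul, Int.cast_zero]
    · intro h1
      exact absurd (Finset.mem_range.2 (by omega)) h1

private theorem comp_one (a : ℚ) :
    minpoly ℚ (Pool.Agent.MPN.comp 1 fun _ => -a) = X - C a := by
  have h1 : (fun _ : Fin 1 => -a) = fun i : Fin 1 => (X - C a : ℚ[X]).coeff (i : ℕ) := by
    funext i
    have hi : (i : ℕ) = 0 := by omega
    rw [hi, coeff_sub, coeff_X_zero, coeff_C_zero, zero_sub]
  rw [h1]
  exact minpoly_comp (monic_X_sub_C a) (natDegree_X_sub_C a)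

private theorem diag_nx (w : ℚ) :
    (minpoly ℚ (Matrix.fromBlocks (Pool.Agent.MPN.comp 1 fun _ => (-1 : ℚ)) 0 0
      (Pool.Agent.MPN.comp 1 fun _ => -(1 + w)))).nextCoeff =
      -(2 + w) + (if w = 0 then 1 else 0) := by
  by_cases hw : w = 0
  · have h1 := minpoly_blocks (Pool.Agent.MPN.comp 1 fun _ => (-1 : ℚ))
      (Pool.Agent.MPN.comp 1 fun _ => -(1 + w)) (Y := X - C 1) (T := 1) (S := 1)
      (monic_X_sub_C 1) monic_one monic_one (by rw [mul_one]; exact comp_one 1)
      (by rw [mul_one, comp_one, hw, add_zero]) isCoprime_one_left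
    rw [h1, mul_one, mul_one, if_pos hw, hw, nextCoeff_X_sub_C]
    norm_num
  · have hcop : IsCoprime (X - C 1 : ℚ[X]) (X - C (1 + w)) := by
      refine ⟨C w⁻¹, -C w⁻¹, ?_⟩
      have h1 : C w⁻¹ * C w = (1 : ℚ[X]) := by
        rw [← C_mul, inv_mul_cancel₀ hw, C_1]
      rw [C_add]
      calc C w⁻¹ * (X - C 1) + -C w⁻¹ * (X - (C 1 + C w)) = C w⁻¹ * C w := by ring
        _ = 1 := h1
    have h1 := minpoly_blocks (Pool.Agent.MPN.comp 1 fun _ => (-1 : ℚ))
      (Pool.Agent.MPN.comp 1 fun _ => -(1 + w)) (Y := 1) (T := X - C 1) (S := X - C (1 + w))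
      monic_one (monic_X_sub_C 1) (monic_X_sub_C _) (by rw [one_mul]; exact comp_one 1)
      (by rw [one_mul, comp_one]) hcop
    rw [h1, one_mul, if_neg hw, (monic_X_sub_C 1).nextCoeff_mul (monic_X_sub_C _),
      nextCoeff_X_sub_C, nextCoeff_X_sub_C]
    ring

theorem zeroInd_of_next (h : NextClosed R) : ZeroInd R := by
  intro f hf
  set f' : R := ⟨f, hf⟩ with hf'
  set B : Matrix (Fin 1 ⊕ Fin 1) (Fin 1 ⊕ Fin 1) R :=
    Matrix.fromBlocks (Pool.Agent.MPN.comp 1 fun _ => (-1 : R)) 0 0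
      (Pool.Agent.MPN.comp 1 fun _ => -(1 + f')) with hBm
  obtain ⟨m, hm, hmx⟩ := h (Fin 1 ⊕ Fin 1) (fun i j => (B i j : Ω → ℤ)) (fun i j => (B i j).2)
  have h3 : zi f = m + (2 + f) := by
    funext x
    have h4 : at' (fun i j => (B i j : Ω → ℤ)) x =
        Matrix.fromBlocks (Pool.Agent.MPN.comp 1 fun _ => (-1 : ℚ)) 0 0
          (Pool.Agent.MPN.comp 1 fun _ => -(1 + ((f x : ℤ) : ℚ))) := by
      ext i j
      rcases i with i | i <;> rcases j with j | j <;>
        simp [at', hBm, Pool.Agent.MPN.comp, hf']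
    have h5 := hmx x
    rw [h4, diag_nx] at h5
    have h6 : ((if ((f x : ℤ) : ℚ) = 0 then 1 else 0 : ℚ)) = ((zi f x : ℤ) : ℚ) := by
      unfold zi
      by_cases h7 : f x = 0
      · rw [if_pos h7, if_pos (by exact_mod_cast h7)]
        norm_num
      · rw [if_neg h7, if_neg (by exact_mod_cast h7)]
        norm_num
    rw [h6] at h5
    have h8 : m x = -(2 + f x) + zi f x := by exact_mod_cast h5
    show zi f x = m x + (2 + f x)
    rw [h8]
    ring
  rw [h3]
  exact R.add_mem hm (R.add_mem (ofNat_mem R 2) hf)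

private theorem key_nx {P : ℚ[X]} (hP : P.Monic) {d : ℕ} (hd : P.natDegree = d) (hd2 : 2 ≤ d)
    {g q : ℚ} (hg : g ≠ 0) (hq : P.eval q = 0) {Q : ℚ[X]}
    (hQ : Q = P + (C g * X - C (g * q))) :
    q = (minpoly ℚ (Matrix.fromBlocks (Pool.Agent.MPN.comp d fun i => P.coeff i) 0 0
      (Pool.Agent.MPN.comp d fun i => Q.coeff i))).nextCoeff - P.coeff (d - 1) - Q.coeff (d - 1) := by
  obtain ⟨T, hT⟩ := dvd_iff_isRoot.2 (show P.IsRoot q from hq)
  have hXq : (X - C q : ℚ[X]).Monic := monic_X_sub_C q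
  have hTm : T.Monic := Monic.of_mul_monic_left hXq (hT ▸ hP)
  have hlow : (C g * X - C (g * q)).degree < P.degree := by
    have h1 : (C g * X - C (g * q) : ℚ[X]).degree ≤ 1 := by
      refine (degree_sub_le _ _).trans ?_
      exact max_le (degree_C_mul_X_le g) (degree_C_le.trans zero_le_one)
    refine lt_of_le_of_lt h1 ?_
    rw [degree_eq_natDegree hP.ne_zero, hd]
    exact_mod_cast (show 1 < d by omega)
  have hQm : Q.Monic := by
    rw [hQ]
    exact hP.add_of_left hlow
  have hQd : Q.natDegree = d := by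
    rw [hQ, natDegree_add_eq_left_of_degree_lt hlow, hd]
  set S : ℚ[X] := T + C g with hS
  have hQS : Q = (X - C q) * S := by
    rw [hQ, hS, hT, C_mul]
    ring
  have hSm : S.Monic := Monic.of_mul_monic_left hXq (hQS ▸ hQm)
  have hcop : IsCoprime T S := by
    refine ⟨-C g⁻¹, C g⁻¹, ?_⟩
    have h1 : C g⁻¹ * C g = (1 : ℚ[X]) := by
      rw [← C_mul, inv_mul_cancel₀ hg, C_1]
    rw [hS]
    calc -C g⁻¹ * T + C g⁻¹ * (T + C g) = C g⁻¹ * C g := by ring
      _ = 1 := h1
  have hM : minpoly ℚ (Pool.Agent.MPN.comp d fun i => P.coeff i) = (X - C q) * T := by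
    rw [minpoly_comp hP hd]
    exact hT
  have hN : minpoly ℚ (Pool.Agent.MPN.comp d fun i => Q.coeff i) = (X - C q) * S := by
    rw [minpoly_comp hQm hQd]
    exact hQS
  rw [minpoly_blocks _ _ hXq hTm hSm hM hN hcop]
  have e2 : P.coeff (d - 1) = P.nextCoeff := by
    rw [nextCoeff_of_natDegree_pos (by omega), hd]
  have e3 : Q.coeff (d - 1) = Q.nextCoeff := by
    rw [nextCoeff_of_natDegree_pos (by omega), hQd]
  rw [e2, e3, (hXq.mul hTm).nextCoeff_mul hSm, hXq.nextCoeff_mul hTm]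
  have e4 : P.nextCoeff = (X - C q).nextCoeff + T.nextCoeff := by
    conv_lhs => rw [hT]
    rw [hXq.nextCoeff_mul hTm]
  have e5 : Q.nextCoeff = (X - C q).nextCoeff + S.nextCoeff := by
    conv_lhs => rw [hQS]
    rw [hXq.nextCoeff_mul hSm]
  rw [e4, e5, nextCoeff_X_sub_C]
  ring

theorem quoClosed_of_next (h : NextClosed R) : QuoClosed R := by
  intro f g y hf hg hg0 hfg hy
  rcases isEmpty_or_nonempty Ω with hΩ | ⟨⟨x0⟩⟩
  · have h1 : y = f := funext fun x => hΩ.elim x
    rw [h1]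
    exact hf
  have hR : Nontrivial R := by
    refine ⟨⟨0, 1, ?_⟩⟩
    intro h1
    have h2 := congrArg (ev R x0) h1
    rw [map_zero, map_one] at h2
    exact zero_ne_one h2
  obtain ⟨P0, hP0m, hP0⟩ := hy
  obtain ⟨P, hPm, hPe, hPd⟩ : ∃ P : R[X], P.Monic ∧ eval₂ (algebraMap R (Ω → ℤ)) y P = 0 ∧
      2 ≤ P.natDegree := by
    refine ⟨X ^ 2 * P0, (monic_X_pow 2).mul hP0m, ?_, ?_⟩
    · rw [eval₂_mul, hP0, mul_zero]
    · rw [(monic_X_pow 2).natDegree_mul hP0m, natDegree_X_pow]
      omega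
  set f' : R := ⟨f, hf⟩ with hf'
  set g' : R := ⟨g, hg⟩ with hg'
  set d : ℕ := P.natDegree with hd
  set Q : R[X] := P + (C g' * X - C f') with hQ
  set B : Matrix (Fin d ⊕ Fin d) (Fin d ⊕ Fin d) R :=
    Matrix.fromBlocks (Pool.Agent.MPN.comp d fun i => P.coeff i) 0 0
      (Pool.Agent.MPN.comp d fun i => Q.coeff i) with hB
  obtain ⟨m, hm, hmx⟩ := h (Fin d ⊕ Fin d) (fun i j => (B i j : Ω → ℤ)) (fun i j => (B i j).2)
  have hy : y = m - (P.coeff (d - 1) : Ω → ℤ) - (Q.coeff (d - 1) : Ω → ℤ) := by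
    funext x
    have h1 : at' (fun i j => (B i j : Ω → ℤ)) x = B.map (ev R x) := rfl
    have h2 : B.map (ev R x) = Matrix.fromBlocks
        (Pool.Agent.MPN.comp d fun i => (P.map (ev R x)).coeff i) 0 0
        (Pool.Agent.MPN.comp d fun i => (Q.map (ev R x)).coeff i) := by
      ext i j
      rcases i with i | i <;> rcases j with j | j
      · simp only [hB, Matrix.map_apply, Matrix.fromBlocks_apply₁₁, Pool.Agent.MPN.comp,
          Matrix.of_apply, coeff_map]
        split_ifs <;> simp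
      · simp [hB]
      · simp [hB]
      · simp only [hB, Matrix.map_apply, Matrix.fromBlocks_apply₂₂, Pool.Agent.MPN.comp,
          Matrix.of_apply, coeff_map]
        split_ifs <;> simp
    have hPxm : (P.map (ev R x)).Monic := hPm.map _
    have hPxd : (P.map (ev R x)).natDegree = d := hPm.natDegree_map _
    have hev : (P.map (ev R x)).eval ((y x : ℤ) : ℚ) = 0 := by
      rw [eval_map]
      have h3 := congrArg ((Int.castRingHom ℚ).comp (Pi.evalRingHom (fun _ : Ω => ℤ) x)) hPe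
      rw [hom_eval₂, map_zero] at h3
      exact h3
    have hQx : Q.map (ev R x) = P.map (ev R x) + (C ((g x : ℤ) : ℚ) * X -
        C (((g x : ℤ) : ℚ) * ((y x : ℤ) : ℚ))) := by
      rw [hQ]
      simp only [Polynomial.map_add, Polynomial.map_mul, Polynomial.map_sub, map_X, map_C, ev_apply]
      have h4 : f x = g x * y x := by
        rw [← hfg]
        exact mul_comm _ _
      rw [hf', hg']
      show _ + (C ((g x : ℤ) : ℚ) * X - C ((f x : ℤ) : ℚ)) = _
      rw [h4, Int.cast_mul]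
    have h5 := key_nx hPxm hPxd hPd (g := ((g x : ℤ) : ℚ)) (by exact_mod_cast hg0 x) hev hQx
    rw [← h2, ← h1, ← hmx x, coeff_map, coeff_map, ev_apply, ev_apply] at h5
    have h6 : y x = m x - (P.coeff (d - 1) : Ω → ℤ) x - (Q.coeff (d - 1) : Ω → ℤ) x := by
      exact_mod_cast h5
    exact h6
  rw [hy]
  exact R.sub_mem (R.sub_mem hm (P.coeff (d - 1)).2) (Q.coeff (d - 1)).2

theorem minPolyClosed_iff_next : MinPolyClosed R ↔ NextClosed R :=
  ⟨next_of_minPoly, fun h => minPolyClosed (zeroInd_of_next h) (quoClosed_of_next h)⟩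

end Pool.Agent.MPC
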